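import Pool.Agent.Helper92.NX92.W

/-!
# The starting sub-couplings and the couplings of streams
-/

set_option autoImplicit false

open MeasureTheory ProbabilityTheory Filter
open scoped ENNReal NNReal

namespace Pool.Agent.Helper92.NX92

open Pool.Agent.Y571.NX (vecD SD lawD)
open Pool.Agent.Y931.NX (vecD_pos vecD_neg lawD_singleton lawD_prob meas_SD isSRW_of_streamD)
open Pool.Agent.Y65.NX (cns meas_cns QD_apply SD_cns)
open Pool.Agent.Results.MP_e4a9a7_pr.FullAnswer (IsSRW)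

variable {d : ℕ}

/-- the walks do not meet -/
def NM (x y : Fin d → ℤ) : Set (St d × St d) := {ω | ∀ m n, x + SD m ω.1 ≠ y + SD n ω.2}

/-- the walks do not meet except possibly at the starting times -/
def NM0 (x y : Fin d → ℤ) : Set (St d × St d) :=
  {ω | ∀ m n, x + SD m ω.1 = y + SD n ω.2 → m = 0 ∧ n = 0}

lemma meas_meet (x y : Fin d → ℤ) (m n : ℕ) :
    MeasurableSet {ω : St d × St d | x + SD m ω.1 = y + SD n ω.2} :=
  measurableSet_eq_fun (((meas_SD m).comp measurable_fst).const_add x)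
    (((meas_SD n).comp measurable_snd).const_add y)

lemma meas_NM (x y : Fin d → ℤ) : MeasurableSet (NM x y) := by
  have e : NM x y = ⋂ m : ℕ, ⋂ n : ℕ, {ω : St d × St d | x + SD m ω.1 = y + SD n ω.2}ᶜ := by
    ext ω
    simp [NM]
  rw [e]
  exact MeasurableSet.iInter fun m => MeasurableSet.iInter fun n => (meas_meet x y m n).compl

lemma meas_NM0 (x y : Fin d → ℤ) : MeasurableSet (NM0 x y) := by
  have e : NM0 x y = ⋂ m : ℕ, ⋂ n : ℕ, ⋂ _ : ¬ (m = 0 ∧ n = 0),
      {ω : St d × St d | x + SD m ω.1 = y + SD n ω.2}ᶜ := by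
    ext ω
    simp only [NM0, Set.mem_ofPred_eq, Set.mem_iInter, Set.mem_compl_iff]
    exact ⟨fun h m n h1 h2 => h1 (h m n h2), fun h m n h1 => by_contra fun h2 => h m n h2 h1⟩
  rw [e]
  exact MeasurableSet.iInter fun m => MeasurableSet.iInter fun n => MeasurableSet.iInter fun _ =>
    (meas_meet x y m n).compl

/-- the sub-coupling of the earlier result -/
theorem base (hd : 3 ≤ d) (x y : Fin d → ℤ) (hxy : x ≠ y) :
    ∃ π : Measure (St d × St d), Adm (PD d) (PD d) (NM x y) π ∧ π Set.univ ≠ 0 := by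
  obtain ⟨Ω, mΩ, P, hP, X, Y, hX, hY, hpos⟩ :=
    (Pool.Agent.Results.MP_e4a9a7_pr.AllPairsAllDimensions.result.1 d x y).2 ⟨hd, hxy⟩
  obtain ⟨ξ, hξm, hξ, hξX⟩ := srw_stream (by omega : 0 < d) hX
  obtain ⟨η, hηm, hη, hηY⟩ := srw_stream (by omega : 0 < d) hY
  obtain ⟨F, hF⟩ : ∃ F : Ω → St d × St d, F = fun ω => (ξ ω, η ω) := ⟨_, rfl⟩
  have hFm : Measurable F := by
    rw [hF]
    exact hξm.prodMk hηm
  have h1 : (P.map F).map Prod.fst = PD d := by
    rw [Measure.map_map measurable_fst hFm, ← hξ, hF]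
    rfl
  have h2 : (P.map F).map Prod.snd = PD d := by
    rw [Measure.map_map measurable_snd hFm, ← hη, hF]
    rfl
  refine ⟨(P.map F).restrict (NM x y), ⟨?_, ?_, ?_⟩, ?_⟩
  · exact (Measure.map_mono Measure.restrict_le_self measurable_fst).trans h1.le
  · exact (Measure.map_mono Measure.restrict_le_self measurable_snd).trans h2.le
  · rw [Measure.restrict_apply (meas_NM x y).compl, Set.compl_inter_self, measure_empty]
  · rw [Measure.restrict_apply_univ, Measure.map_apply hFm (meas_NM x y)]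
    refine (lt_of_lt_of_le hpos (measure_mono_ae ?_)).ne'
    filter_upwards [hξX, hηY] with ω hω1 hω2 hω3
    have hω3' : Disjoint (Set.range fun n => X n ω) (Set.range fun m => Y m ω) := hω3
    show F ω ∈ NM x y
    rw [hF]
    intro m n hmn
    simp only at hmn
    rw [← hω1 m, ← hω2 n] at hmn
    exact Set.disjoint_left.1 hω3' ⟨m, rfl⟩ ⟨n, hmn.symm⟩

theorem ae_Tr (hd : 3 ≤ d) : ∀ᵐ u ∂(PD d), u ∈ Tr d := by
  have hne : (0 : Fin d → ℤ) ≠ vecD (⟨0, by omega⟩, true) := by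
    intro h
    have := congrFun h ⟨0, by omega⟩
    simp [vecD] at this
  obtain ⟨π, h1, h2⟩ := base hd _ _ hne
  exact transient (by omega) _ _ π h1.1 h2 h1.2.2

/-- a sub-coupling for two walks from the same point which meet only at the start -/
theorem base_same (hd : 3 ≤ d) (x : Fin d → ℤ) :
    ∃ π : Measure (St d × St d), Adm (PD d) (PD d) (NM0 x x) π ∧ π Set.univ ≠ 0 := by
  have hd0 : 0 < d := by omega
  obtain ⟨s, hs⟩ : ∃ s : Fin d × Bool, s = (⟨0, hd0⟩, true) := ⟨_, rfl⟩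
  have hne : (0 : Fin d → ℤ) ≠ vecD s := by
    intro h
    have := congrFun h ⟨0, by omega⟩
    rw [hs] at this
    simp [vecD] at this
  obtain ⟨π, h1, h2⟩ := base hd _ _ hne
  -- the last visit of the first walk to the origin
  obtain ⟨E, hE⟩ : ∃ E : ℕ → Set (St d × St d),
      E = fun k => {ω | SD k ω.1 = 0 ∧ ∀ n, k < n → SD n ω.1 ≠ 0} := ⟨_, rfl⟩
  have hEm : ∀ k, MeasurableSet (E k) := by
    intro k
    have e : E k = (Prod.fst ⁻¹' (SD k ⁻¹' {0})) ∩ ⋂ n : ℕ, ⋂ _ : k < n,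
        (Prod.fst ⁻¹' (SD n ⁻¹' {0}))ᶜ := by
      rw [hE]
      ext ω
      simp
    rw [e]
    exact (measurable_fst (meas_SD k (MeasurableSet.singleton _))).inter
      (MeasurableSet.iInter fun n => MeasurableSet.iInter fun _ =>
        (measurable_fst (meas_SD n (MeasurableSet.singleton _))).compl)
  have hTr : ∀ᵐ ω ∂π, ω.1 ∈ Tr d :=
    ae_of_ae_map measurable_fst.aemeasurable ((ae_Tr hd).filter_mono (ae_mono h1.1))
  obtain ⟨k, hk⟩ : ∃ k, π (E k) ≠ 0 := by
    by_contra hc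
    push Not at hc
    have h3 : π (⋃ k, E k) = 0 := measure_iUnion_null hc
    have h4 : ∀ᵐ ω ∂π, False := by
      filter_upwards [hTr, measure_eq_zero_iff_ae_notMem.1 h3] with ω h4 h5
      apply h5
      obtain ⟨N, hN⟩ := h4 0
      classical
      obtain ⟨k, hk1, hk2⟩ : ∃ k, SD k ω.1 = 0 ∧ ∀ n, k < n → SD n ω.1 ≠ 0 := by
        have hex : ∃ k, k ≤ N ∧ SD k ω.1 = 0 := ⟨0, Nat.zero_le _, SD_zero _⟩
        have hfm := Nat.findGreatest_spec (P := fun k => SD k ω.1 = 0) (Nat.zero_le N) (SD_zero _)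
        refine ⟨Nat.findGreatest (fun k => SD k ω.1 = 0) N, hfm, fun n hn => ?_⟩
        by_cases h6 : n ≤ N
        · exact Nat.findGreatest_is_greatest hn h6
        · exact hN n (by omega)
      refine Set.mem_iUnion.2 ⟨k, ?_⟩
      rw [hE]
      exact ⟨hk1, hk2⟩
    rw [ae_iff] at h4
    exact h2 (by simpa using h4)
  -- forget the past of the first walk, prepend a step to the second
  obtain ⟨F, hF⟩ : ∃ F : St d × St d → St d × St d,
    F = fun ω => (fun i => ω.1 (k + i), cns s ω.2) := ⟨_, rfl⟩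
  have hshm : Measurable fun (u : St d) (i : ℕ) => u (k + i) :=
    measurable_pi_lambda _ fun i => measurable_pi_apply _
  have hFm : Measurable F := by
    rw [hF]
    exact (hshm.comp measurable_fst).prodMk ((measurable_cns s).comp measurable_snd)
  have hc1 : (2 * (d : ℝ≥0∞))⁻¹ ≤ 1 := by
    rw [ENNReal.inv_le_one]
    have : (1 : ℝ≥0∞) ≤ (d : ℝ≥0∞) := by exact_mod_cast hd0
    calc (1 : ℝ≥0∞) ≤ (d : ℝ≥0∞) := this
      _ ≤ 2 * (d : ℝ≥0∞) := le_mul_of_one_le_left' (by norm_num)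
  have hc0 : (2 * (d : ℝ≥0∞))⁻¹ ≠ 0 := by
    rw [Ne, ENNReal.inv_eq_zero]
    exact ENNReal.mul_ne_top (by norm_num) (ENNReal.natCast_ne_top d)
  refine ⟨(2 * (d : ℝ≥0∞))⁻¹ • (π.restrict (E k)).map F, ⟨?_, ?_, ?_⟩, ?_⟩
  · rw [Measure.le_iff]
    intro A hA
    rw [Measure.map_apply measurable_fst hA, Measure.smul_apply,
      Measure.map_apply hFm (measurable_fst hA), smul_eq_mul]
    calc (2 * (d : ℝ≥0∞))⁻¹ * (π.restrict (E k)) (F ⁻¹' (Prod.fst ⁻¹' A))
        ≤ 1 * π (F ⁻¹' (Prod.fst ⁻¹' A)) := mul_le_mul' hc1 (Measure.restrict_apply_le _ _)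
      _ = π (Prod.fst ⁻¹' ((fun (u : St d) (i : ℕ) => u (k + i)) ⁻¹' A)) := by
          rw [one_mul, hF]
          rfl
      _ = π.map Prod.fst ((fun (u : St d) (i : ℕ) => u (k + i)) ⁻¹' A) :=
          (Measure.map_apply measurable_fst (hshm hA)).symm
      _ ≤ PD d ((fun (u : St d) (i : ℕ) => u (k + i)) ⁻¹' A) := h1.1 _
      _ = PD d A := by rw [← Measure.map_apply hshm hA, map_shift hd0]
  · rw [Measure.le_iff]
    intro A hA
    rw [Measure.map_apply measurable_snd hA, Measure.smul_apply,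
      Measure.map_apply hFm (measurable_snd hA), smul_eq_mul]
    calc (2 * (d : ℝ≥0∞))⁻¹ * (π.restrict (E k)) (F ⁻¹' (Prod.snd ⁻¹' A))
        ≤ (2 * (d : ℝ≥0∞))⁻¹ * π (F ⁻¹' (Prod.snd ⁻¹' A)) :=
          mul_le_mul' le_rfl (Measure.restrict_apply_le _ _)
      _ = (2 * (d : ℝ≥0∞))⁻¹ * π (Prod.snd ⁻¹' (cns s ⁻¹' A)) := by
          rw [hF]
          rfl
      _ = (2 * (d : ℝ≥0∞))⁻¹ * π.map Prod.snd (cns s ⁻¹' A) := by
          rw [Measure.map_apply measurable_snd (measurable_cns s hA)]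
      _ ≤ (2 * (d : ℝ≥0∞))⁻¹ * PD d (cns s ⁻¹' A) := mul_le_mul' le_rfl (h1.2.1 _)
      _ = ((2 * (d : ℝ≥0∞))⁻¹ • (PD d).map (cns s)) A := by
          rw [Measure.smul_apply, Measure.map_apply (measurable_cns s) hA, smul_eq_mul]
      _ ≤ PD d A := map_cns_le hd0 s A
  · rw [Measure.smul_apply, Measure.map_apply hFm (meas_NM0 x x).compl,
      Measure.restrict_apply (hFm (meas_NM0 x x).compl), smul_eq_mul]
    have h3 : π (F ⁻¹' (NM0 x x)ᶜ ∩ E k) = 0 := by
      refine measure_mono_null ?_ h1.2.2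
      intro ω hω hc
      apply hω.1
      have hω2 := hω.2
      rw [hE] at hω2
      obtain ⟨hk1, hk2⟩ := hω2
      rw [hF]
      intro m n hmn
      have hmn2 : SD m (fun i => ω.1 (k + i)) = SD n (cns s ω.2) := add_left_cancel hmn
      have hsh : SD m (fun i => ω.1 (k + i)) = SD (k + m) ω.1 := by
        rw [SD_add, hk1, zero_add]
      rw [hsh] at hmn2
      have hn : n = 0 := by
        by_contra hn
        obtain ⟨n', rfl⟩ : ∃ n', n = n' + 1 := ⟨n - 1, by omega⟩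
        rw [SD_cns] at hmn2
        exact hc (k + m) n' (by rw [zero_add, hmn2])
      subst hn
      refine ⟨?_, rfl⟩
      by_contra hm
      rw [SD_zero] at hmn2
      exact hk2 (k + m) (by omega) hmn2
    rw [h3, mul_zero]
  · rw [Measure.smul_apply, Measure.map_apply hFm MeasurableSet.univ, Set.preimage_univ,
      Measure.restrict_apply_univ, smul_eq_mul]
    exact mul_ne_zero hc0 hk

/-- sub-couplings which meet at most at the start -/
theorem base_all (hd : 3 ≤ d) (x y : Fin d → ℤ) :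
    ∃ π : Measure (St d × St d), Adm (PD d) (PD d) (NM0 x y) π ∧ π Set.univ ≠ 0 := by
  by_cases hxy : x = y
  · subst hxy
    exact base_same hd x
  · obtain ⟨π, h1, h2⟩ := base hd x y hxy
    refine ⟨π, ⟨h1.1, h1.2.1, measure_mono_null ?_ h1.2.2⟩, h2⟩
    rw [Set.compl_subset_compl]
    intro ω hω m n hmn
    exact absurd hmn (hω m n)

/-- **The couplings of the streams.** -/
theorem streams (hd : 3 ≤ d) (x y : Fin d → ℤ) :
    ∃ μ : Measure (St d × St d), IsProbabilityMeasure μ ∧ μ.map Prod.fst = PD d ∧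
      μ.map Prod.snd = PD d ∧ μ (RR x y)ᶜ = 0 ∧ μ (NM0 x y) ≠ 0 := by
  obtain ⟨π, h1, h2⟩ := base_all hd x y
  have hT1 : ∀ᵐ ω ∂π, ω.1 ∈ Tr d :=
    ae_of_ae_map measurable_fst.aemeasurable ((ae_Tr hd).filter_mono (ae_mono h1.1))
  have hT2 : ∀ᵐ ω ∂π, ω.2 ∈ Tr d :=
    ae_of_ae_map measurable_snd.aemeasurable ((ae_Tr hd).filter_mono (ae_mono h1.2.1))
  have hN : ∀ᵐ ω ∂π, ω ∈ NM0 x y := h1.2.2
  have hR : Adm (PD d) (PD d) (RR x y) π := by
    refine ⟨h1.1, h1.2.1, ?_⟩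
    have h3 : ∀ᵐ ω ∂π, ω ∈ RR x y := by
      filter_upwards [hT1, hT2, hN] with ω a b c
      refine ⟨a, b, 1, fun m n hm hn hmn => ?_⟩
      have := (c m n hmn).1
      omega
    exact h3
  obtain ⟨μ, m1, m2, m3, m4, m5⟩ := complete_RR (by omega) x y π hR h2
  refine ⟨μ, m1, m2, m3, m4, ?_⟩
  intro h0
  apply h2
  have h3 : π (NM0 x y) = 0 := le_antisymm ((m5 _).trans h0.le) zero_le
  have h4 : π Set.univ ≤ π (NM0 x y) + π (NM0 x y)ᶜ := by
    rw [← Set.union_compl_self (NM0 x y)]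
    exact measure_union_le _ _
  rw [h3, h1.2.2, add_zero] at h4
  exact le_antisymm h4 zero_le

end Pool.Agent.Helper92.NX92
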