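import Mathlib

/-!
# Completing sub-couplings
-/

set_option autoImplicit false

open MeasureTheory ProbabilityTheory Filter
open scoped ENNReal NNReal

namespace Pool.Agent.Helper92.NX92

variable {α β : Type} [MeasurableSpace α] [MeasurableSpace β]

/-- sub-couplings of `P1` and `P2` which are supported by the relation `R` -/
def Adm (P1 : Measure α) (P2 : Measure β) (R : Set (α × β)) (π : Measure (α × β)) : Prop :=
  π.map Prod.fst ≤ P1 ∧ π.map Prod.snd ≤ P2 ∧ π Rᶜ = 0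

lemma Adm.mono {P1 : Measure α} {P2 : Measure β} {R : Set (α × β)} {π π' : Measure (α × β)}
    (h : Adm P1 P2 R π') (hle : π ≤ π') : Adm P1 P2 R π :=
  ⟨(Measure.map_mono hle measurable_fst).trans h.1, (Measure.map_mono hle measurable_snd).trans h.2.1,
    le_antisymm ((hle _).trans h.2.2.le) zero_le⟩

lemma Adm.le_one {P1 : Measure α} {P2 : Measure β} {R : Set (α × β)} {π : Measure (α × β)}
    [IsProbabilityMeasure P1] (h : Adm P1 P2 R π) : π Set.univ ≤ 1 := by
  have h1 := h.1 Set.univ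
  rw [Measure.map_apply measurable_fst MeasurableSet.univ, Set.preimage_univ,
    measure_univ (μ := P1)] at h1
  exact h1

/-- a sub-coupling which adds at least half of what can be added -/
lemma exists_half {P1 : Measure α} {P2 : Measure β} {R : Set (α × β)} [IsProbabilityMeasure P1]
    (π : Measure (α × β)) (h : Adm P1 P2 R π) :
    ∃ δ : Measure (α × β), Adm P1 P2 R (π + δ) ∧
      ∀ δ' : Measure (α × β), Adm P1 P2 R (π + δ') → δ' Set.univ ≤ 2 * δ Set.univ := by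
  obtain ⟨a, ha⟩ : ∃ a : ℝ≥0∞, a = ⨆ δ' : {δ' : Measure (α × β) // Adm P1 P2 R (π + δ')},
    δ'.1 Set.univ := ⟨_, rfl⟩
  have ha1 : a ≤ 1 := by
    rw [ha]
    refine iSup_le fun δ' => ?_
    exact (δ'.2.mono (π := δ'.1) (Measure.le_add_left le_rfl)).le_one
  have hle : ∀ δ' : Measure (α × β), Adm P1 P2 R (π + δ') → δ' Set.univ ≤ a := by
    intro δ' hδ'
    rw [ha]
    exact le_iSup (fun δ' : {δ' : Measure (α × β) // Adm P1 P2 R (π + δ')} => δ'.1 Set.univ)
      ⟨δ', hδ'⟩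
  rcases eq_or_ne a 0 with h0 | h0
  · refine ⟨0, by rwa [add_zero], fun δ' hδ' => ?_⟩
    rw [h0] at hle
    exact (hle δ' hδ').trans zero_le
  · have hlt : a / 2 < a := ENNReal.half_lt_self h0 (ne_top_of_le_ne_top ENNReal.one_ne_top ha1)
    nth_rewrite 2 [ha] at hlt
    obtain ⟨δ, hδ⟩ := lt_iSup_iff.1 hlt
    refine ⟨δ.1, δ.2, fun δ' hδ' => (hle δ' hδ').trans ?_⟩
    calc a = 2 * (a / 2) := by rw [ENNReal.mul_div_cancel (by norm_num) (by norm_num)]
      _ ≤ 2 * δ.1 Set.univ := by gcongr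

/-- **Exhaustion.** If every sub-coupling which is not a coupling can be extended then every
sub-coupling can be extended to a coupling. -/
theorem exhaustion {P1 : Measure α} {P2 : Measure β} {R : Set (α × β)} (hR : MeasurableSet R)
    [IsProbabilityMeasure P1] [IsProbabilityMeasure P2]
    (hext : ∀ π, Adm P1 P2 R π → π Set.univ < 1 → ∃ π', Adm P1 P2 R (π + π') ∧ π' Set.univ ≠ 0)
    (π0 : Measure (α × β)) (h0 : Adm P1 P2 R π0) :
    ∃ μ : Measure (α × β), IsProbabilityMeasure μ ∧ μ.map Prod.fst = P1 ∧ μ.map Prod.snd = P2 ∧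
      μ Rᶜ = 0 ∧ π0 ≤ μ := by
  classical
  choose δ hδ1 hδ2 using fun p : {π : Measure (α × β) // Adm P1 P2 R π} => exists_half p.1 p.2
  obtain ⟨s, hs0, hs⟩ : ∃ s : ℕ → {π : Measure (α × β) // Adm P1 P2 R π}, (s 0).1 = π0 ∧
      ∀ n, (s (n + 1)).1 = (s n).1 + δ (s n) := by
    refine ⟨fun n => Nat.rec ⟨π0, h0⟩ (fun _ p => ⟨p.1 + δ p, hδ1 p⟩) n, rfl, fun n => rfl⟩
  obtain ⟨f, hf0, hf⟩ : ∃ f : ℕ → Measure (α × β), f 0 = π0 ∧ ∀ n, f (n + 1) = δ (s n) :=
    ⟨fun n => Nat.casesOn n π0 fun n => δ (s n), rfl, fun n => rfl⟩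
  have hpart : ∀ n, ∑ i ∈ Finset.range (n + 1), f i = (s n).1 := by
    intro n
    induction n with
    | zero => rw [Finset.sum_range_one, hf0, hs0]
    | succ n ih => rw [Finset.sum_range_succ, ih, hf, hs]
  obtain ⟨μ, hμ⟩ : ∃ μ, μ = Measure.sum f := ⟨_, rfl⟩
  have happ : ∀ A, MeasurableSet A → ∀ c : ℝ≥0∞, (∀ n, (s n).1 A ≤ c) → μ A ≤ c := by
    intro A hA c hc
    rw [hμ, Measure.sum_apply _ hA, ENNReal.tsum_eq_iSup_nat]
    refine iSup_le fun n => ?_
    refine le_trans ?_ (hc n)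
    rw [← hpart n, Measure.finsetSum_apply]
    exact Finset.sum_le_sum_of_subset (Finset.range_subset_range.2 (Nat.le_succ n))
  have hle : ∀ n, (s n).1 ≤ μ := by
    intro n
    rw [← hpart n, hμ, Measure.le_iff]
    intro A hA
    rw [Measure.finsetSum_apply, Measure.sum_apply _ hA]
    exact ENNReal.sum_le_tsum _
  have hadm : Adm P1 P2 R μ := by
    refine ⟨?_, ?_, ?_⟩
    · rw [Measure.le_iff]
      intro A hA
      rw [Measure.map_apply measurable_fst hA]
      refine happ _ (measurable_fst hA) _ fun n => ?_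
      rw [← Measure.map_apply measurable_fst hA]
      exact (s n).2.1 A
    · rw [Measure.le_iff]
      intro A hA
      rw [Measure.map_apply measurable_snd hA]
      refine happ _ (measurable_snd hA) _ fun n => ?_
      rw [← Measure.map_apply measurable_snd hA]
      exact (s n).2.2.1 A
    · exact le_antisymm (happ _ hR.compl _ fun n => (s n).2.2.2.le) zero_le
  have hone : μ Set.univ = 1 := by
    by_contra hne
    obtain ⟨π', h1, h2⟩ := hext μ hadm (lt_of_le_of_ne hadm.le_one hne)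
    have h3 : ∀ n, π' Set.univ ≤ 2 * δ (s n) Set.univ := by
      intro n
      refine hδ2 (s n) π' (h1.mono ?_)
      exact add_le_add (hle n) le_rfl
    have h4 : ∑' n : ℕ, δ (s n) Set.univ ≤ 1 := by
      refine le_trans ?_ hadm.le_one
      rw [hμ, Measure.sum_apply _ MeasurableSet.univ]
      calc ∑' n : ℕ, δ (s n) Set.univ = ∑' n : ℕ, f (n + 1) Set.univ := by
            refine tsum_congr fun n => ?_
            rw [hf]
        _ ≤ ∑' n : ℕ, f n Set.univ :=
            ENNReal.tsum_comp_le_tsum_of_injective (add_left_injective 1) _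
    have h5 : ∑' _n : ℕ, π' Set.univ ≤ 2 * 1 := by
      calc ∑' _n : ℕ, π' Set.univ ≤ ∑' n : ℕ, 2 * δ (s n) Set.univ := ENNReal.tsum_le_tsum h3
        _ = 2 * ∑' n : ℕ, δ (s n) Set.univ := ENNReal.tsum_mul_left
        _ ≤ 2 * 1 := by gcongr
    rw [ENNReal.tsum_const_eq_top_of_ne_zero h2] at h5
    norm_num at h5
  have hprob : IsProbabilityMeasure μ := ⟨hone⟩
  have hp1 : IsProbabilityMeasure (μ.map Prod.fst) :=
    Measure.isProbabilityMeasure_map measurable_fst.aemeasurable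
  have hp2 : IsProbabilityMeasure (μ.map Prod.snd) :=
    Measure.isProbabilityMeasure_map measurable_snd.aemeasurable
  refine ⟨μ, hprob, ?_, ?_, hadm.2.2, ?_⟩
  · exact Measure.eq_of_le_of_measure_univ_eq hadm.1 (by rw [measure_univ, measure_univ])
  · exact Measure.eq_of_le_of_measure_univ_eq hadm.2.1 (by rw [measure_univ, measure_univ])
  · rw [← hs0]
    exact hle 0

/-- residual mass can be used -/
lemma residual {P : Measure α} [IsProbabilityMeasure P] {ρ : Measure α} (h : ρ ≤ P)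
    (hlt : ρ Set.univ < 1) : ∃ (ε : ℝ≥0) (E : Set α), 0 < ε ∧ MeasurableSet E ∧ P E ≠ 0 ∧
      ∀ A, MeasurableSet A → ρ A + ε * P (A ∩ E) ≤ P A := by
  have : IsFiniteMeasure ρ := ⟨hlt.trans ENNReal.one_lt_top⟩
  have hadd : (P - ρ) + ρ = P := Measure.sub_add_cancel_of_le h
  have hle : P - ρ ≤ P := Measure.sub_le
  have hfin : IsFiniteMeasure (P - ρ) := ⟨(hle _).trans_lt (measure_lt_top _ _)⟩
  have hne : P - ρ ≠ 0 := by
    intro h0
    rw [h0, zero_add] at hadd
    rw [hadd, measure_univ] at hlt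
    exact lt_irrefl _ hlt
  have hns : ¬ (P - ρ) ⟂ₘ P := fun hc =>
    hne (Measure.eq_zero_of_absolutelyContinuous_of_mutuallySingular hle.absolutelyContinuous hc)
  obtain ⟨ε, hε, E, hE, hPE, hA⟩ := Measure.exists_positive_of_not_mutuallySingular _ _ hns
  refine ⟨ε, E, hε, hE, hPE.ne', fun A hAm => ?_⟩
  calc ρ A + ε * P (A ∩ E) ≤ ρ A + (P - ρ) (A ∩ E) := by gcongr; exact hA A hAm
    _ ≤ ρ A + (P - ρ) A := by gcongr; exact Set.inter_subset_left
    _ = ((P - ρ) + ρ) A := by rw [Measure.add_apply, add_comm]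
    _ = P A := by rw [hadd]

/-- **Extension.** If there are enough moves which preserve the laws and the relation then a nonzero
sub-coupling gives extensions of all sub-couplings which are not couplings. -/
theorem extension {P1 : Measure α} {P2 : Measure β} {R : Set (α × β)} (hR : MeasurableSet R)
    [IsProbabilityMeasure P1] [IsProbabilityMeasure P2] {ι κ : Type} [Countable ι] [Countable κ]
    (t : ι → α → α) (u : κ → β → β) (ht : ∀ i, Measurable (t i)) (hu : ∀ j, Measurable (u j))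
    (htP : ∀ i, P1.map (t i) = P1) (huP : ∀ j, P2.map (u j) = P2)
    (hte : ∀ G, MeasurableSet G → P1 G ≠ 0 → ∀ᵐ x ∂P1, ∃ i, t i x ∈ G)
    (hue : ∀ G, MeasurableSet G → P2 G ≠ 0 → ∀ᵐ x ∂P2, ∃ j, u j x ∈ G)
    (hinv : ∀ i j, ∀ ω ∈ R, (t i ω.1, u j ω.2) ∈ R)
    (π0 : Measure (α × β)) (h0 : Adm P1 P2 R π0) (hne : π0 Set.univ ≠ 0)
    (π : Measure (α × β)) (hπ : Adm P1 P2 R π) (hlt : π Set.univ < 1) :
    ∃ π', Adm P1 P2 R (π + π') ∧ π' Set.univ ≠ 0 := by
  obtain ⟨ε1, E1, hε1, hE1, hP1, hA1⟩ := residual hπ.1 (by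
    rw [Measure.map_apply measurable_fst MeasurableSet.univ]; exact hlt)
  obtain ⟨ε2, E2, hε2, hE2, hP2, hA2⟩ := residual hπ.2.1 (by
    rw [Measure.map_apply measurable_snd MeasurableSet.univ]; exact hlt)
  have h1 : ∀ᵐ ω ∂π0, ∃ i, t i ω.1 ∈ E1 := by
    have h2 := (hte E1 hE1 hP1).filter_mono (ae_mono h0.1)
    exact ae_of_ae_map measurable_fst.aemeasurable h2
  have h2 : ∀ᵐ ω ∂π0, ∃ j, u j ω.2 ∈ E2 := by
    have h2 := (hue E2 hE2 hP2).filter_mono (ae_mono h0.2.1)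
    exact ae_of_ae_map measurable_snd.aemeasurable h2
  obtain ⟨D, hD⟩ : ∃ D : ι → κ → Set (α × β), D = fun i j => {ω | t i ω.1 ∈ E1 ∧ u j ω.2 ∈ E2} :=
    ⟨_, rfl⟩
  have hDm : ∀ i j, MeasurableSet (D i j) := by
    intro i j
    rw [hD]
    exact (((ht i).comp measurable_fst) hE1).inter (((hu j).comp measurable_snd) hE2)
  obtain ⟨i, j, hij⟩ : ∃ i j, π0 (D i j) ≠ 0 := by
    by_contra hc
    push Not at hc
    apply hne
    have h3 : π0 (⋃ i, ⋃ j, D i j) = 0 :=
      measure_iUnion_null fun i => measure_iUnion_null fun j => hc i j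
    have h4 : ∀ᵐ ω ∂π0, False := by
      filter_upwards [h1, h2, measure_eq_zero_iff_ae_notMem.1 h3] with ω ⟨i, hi⟩ ⟨j, hj⟩ h5
      apply h5
      rw [hD]
      exact Set.mem_iUnion.2 ⟨i, Set.mem_iUnion.2 ⟨j, hi, hj⟩⟩
    rw [ae_iff] at h4
    simpa using h4
  obtain ⟨m, hm⟩ : ∃ m : α × β → α × β, m = fun ω => (t i ω.1, u j ω.2) := ⟨_, rfl⟩
  have hmm : Measurable m := by
    rw [hm]
    exact ((ht i).comp measurable_fst).prodMk ((hu j).comp measurable_snd)
  obtain ⟨ε, hε⟩ : ∃ ε : ℝ≥0, ε = min ε1 ε2 := ⟨_, rfl⟩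
  have hεpos : 0 < ε := by rw [hε]; exact lt_min hε1 hε2
  obtain ⟨π', hπ'⟩ : ∃ π' : Measure (α × β), π' = ε • (π0.restrict (D i j)).map m := ⟨_, rfl⟩
  have hap : ∀ A, MeasurableSet A → π' A = ε * π0 (m ⁻¹' A ∩ D i j) := by
    intro A hA
    rw [hπ', Measure.smul_apply, Measure.map_apply hmm hA, Measure.restrict_apply (hmm hA)]
    rfl
  refine ⟨π', ⟨?_, ?_, ?_⟩, ?_⟩
  · rw [Measure.le_iff]
    intro A hA
    rw [Measure.map_apply measurable_fst hA, Measure.add_apply]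
    refine le_trans ?_ (hA1 A hA)
    rw [← Measure.map_apply measurable_fst hA]
    refine add_le_add le_rfl ?_
    rw [hap _ (measurable_fst hA)]
    have h3 : π0 (m ⁻¹' (Prod.fst ⁻¹' A) ∩ D i j) ≤ P1 (A ∩ E1) := by
      calc π0 (m ⁻¹' (Prod.fst ⁻¹' A) ∩ D i j) ≤ π0 (Prod.fst ⁻¹' (t i ⁻¹' (A ∩ E1))) := by
            refine measure_mono ?_
            intro ω hω
            rw [hm, hD] at hω
            exact ⟨hω.1, hω.2.1⟩
        _ = π0.map Prod.fst (t i ⁻¹' (A ∩ E1)) :=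
            (Measure.map_apply measurable_fst (ht i (hA.inter hE1))).symm
        _ ≤ P1 (t i ⁻¹' (A ∩ E1)) := h0.1 _
        _ = P1 (A ∩ E1) := by rw [← Measure.map_apply (ht i) (hA.inter hE1), htP]
    have h4 : (ε : ℝ≥0∞) ≤ ε1 := by rw [hε]; exact ENNReal.coe_le_coe.2 (min_le_left _ _)
    exact mul_le_mul' h4 h3
  · rw [Measure.le_iff]
    intro A hA
    rw [Measure.map_apply measurable_snd hA, Measure.add_apply]
    refine le_trans ?_ (hA2 A hA)
    rw [← Measure.map_apply measurable_snd hA]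
    refine add_le_add le_rfl ?_
    rw [hap _ (measurable_snd hA)]
    have h3 : π0 (m ⁻¹' (Prod.snd ⁻¹' A) ∩ D i j) ≤ P2 (A ∩ E2) := by
      calc π0 (m ⁻¹' (Prod.snd ⁻¹' A) ∩ D i j) ≤ π0 (Prod.snd ⁻¹' (u j ⁻¹' (A ∩ E2))) := by
            refine measure_mono ?_
            intro ω hω
            rw [hm, hD] at hω
            exact ⟨hω.1, hω.2.2⟩
        _ = π0.map Prod.snd (u j ⁻¹' (A ∩ E2)) :=
            (Measure.map_apply measurable_snd (hu j (hA.inter hE2))).symm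
        _ ≤ P2 (u j ⁻¹' (A ∩ E2)) := h0.2.1 _
        _ = P2 (A ∩ E2) := by rw [← Measure.map_apply (hu j) (hA.inter hE2), huP]
    have h4 : (ε : ℝ≥0∞) ≤ ε2 := by rw [hε]; exact ENNReal.coe_le_coe.2 (min_le_right _ _)
    exact mul_le_mul' h4 h3
  · rw [Measure.add_apply, hπ.2.2, zero_add, hap _ hR.compl]
    have h3 : π0 (m ⁻¹' Rᶜ ∩ D i j) = 0 := by
      refine measure_mono_null ?_ h0.2.2
      intro ω hω hc
      apply hω.1
      rw [hm]
      exact hinv i j ω hc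
    rw [h3, mul_zero]
  · rw [hap _ MeasurableSet.univ, Set.preimage_univ, Set.univ_inter]
    exact mul_ne_zero (ENNReal.coe_ne_zero.2 hεpos.ne') hij

/-- **Completion.** -/
theorem complete {P1 : Measure α} {P2 : Measure β} {R : Set (α × β)} (hR : MeasurableSet R)
    [IsProbabilityMeasure P1] [IsProbabilityMeasure P2] {ι κ : Type} [Countable ι] [Countable κ]
    (t : ι → α → α) (u : κ → β → β) (ht : ∀ i, Measurable (t i)) (hu : ∀ j, Measurable (u j))
    (htP : ∀ i, P1.map (t i) = P1) (huP : ∀ j, P2.map (u j) = P2)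
    (hte : ∀ G, MeasurableSet G → P1 G ≠ 0 → ∀ᵐ x ∂P1, ∃ i, t i x ∈ G)
    (hue : ∀ G, MeasurableSet G → P2 G ≠ 0 → ∀ᵐ x ∂P2, ∃ j, u j x ∈ G)
    (hinv : ∀ i j, ∀ ω ∈ R, (t i ω.1, u j ω.2) ∈ R)
    (π0 : Measure (α × β)) (h0 : Adm P1 P2 R π0) (hne : π0 Set.univ ≠ 0) :
    ∃ μ : Measure (α × β), IsProbabilityMeasure μ ∧ μ.map Prod.fst = P1 ∧ μ.map Prod.snd = P2 ∧
      μ Rᶜ = 0 ∧ π0 ≤ μ :=
  exhaustion hR (extension hR t u ht hu htP huP hte hue hinv π0 h0 hne) π0 h0

end Pool.Agent.Helper92.NX92
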