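import Pool.Agent.Helper92.NX92.Base

/-!
# Continuing couplings of initial segments
-/

set_option autoImplicit false

open MeasureTheory ProbabilityTheory Filter
open scoped ENNReal NNReal

namespace Pool.Agent.Helper92.NX92

open Pool.Agent.Y571.NX (vecD SD lawD)
open Pool.Agent.Y931.NX (vecD_pos vecD_neg lawD_singleton lawD_prob meas_SD isSRW_of_streamD)
open Pool.Agent.Y65.NX (cns meas_cns QD_apply SD_cns)
open Pool.Agent.Results.MP_e4a9a7_pr.FullAnswer (IsSRW)

variable {d : ℕ}

/-- the first `N` steps of `u` followed by `v` -/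
def glu (N : ℕ) (u v : St d) : St d := fun i => if i < N then u i else v (i - N)

lemma meas_glu (N : ℕ) : Measurable fun p : St d × St d => glu N p.1 p.2 := by
  refine measurable_pi_lambda _ fun i => ?_
  unfold glu
  split_ifs
  · exact (measurable_pi_apply i).comp measurable_fst
  · exact (measurable_pi_apply (i - N)).comp measurable_snd

lemma SD_glu_le (N : ℕ) (u v : St d) (k : ℕ) (hk : k ≤ N) : SD k (glu N u v) = SD k u := by
  unfold SD glu
  refine Finset.sum_congr rfl fun i hi => ?_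
  rw [Finset.mem_range] at hi
  rw [if_pos (by omega)]

lemma SD_glu_add (N : ℕ) (u v : St d) (k : ℕ) : SD (N + k) (glu N u v) = SD N u + SD k v := by
  rw [SD_add, SD_glu_le N u v N le_rfl]
  congr 1
  unfold SD glu
  refine Finset.sum_congr rfl fun i _ => ?_
  beta_reduce
  rw [if_neg (by omega), Nat.add_sub_cancel_left]

lemma map_glu (hd : 0 < d) (N : ℕ) : ((PD d).prod (PD d)).map (fun p => glu N p.1 p.2) = PD d := by
  have hl := lawD_prob hd
  have hp := PD_prob hd
  classical
  conv_rhs => unfold PD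
  refine Measure.eq_infinitePi _ fun I t ht => ?_
  rw [Measure.map_apply (meas_glu N) (MeasurableSet.pi I.countable_toSet fun _ _ => ht _)]
  obtain ⟨I1, hI1⟩ : ∃ I1 : Finset ℕ, I1 = I.filter (fun i => i < N) := ⟨_, rfl⟩
  obtain ⟨I2, hI2⟩ : ∃ I2 : Finset ℕ, I2 = I.preimage (fun i => i + N)
      (Function.Injective.injOn (add_left_injective N)) := ⟨_, rfl⟩
  have hpre : (fun p : St d × St d => glu N p.1 p.2) ⁻¹' ((I : Set ℕ).pi t) =
      ((I1 : Set ℕ).pi t) ×ˢ ((I2 : Set ℕ).pi fun i => t (i + N)) := by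
    ext ⟨u, v⟩
    simp only [Set.mem_preimage, Set.mem_pi, Set.mem_prod, hI1, hI2, Finset.coe_filter,
      Finset.coe_preimage, Set.mem_ofPred_eq, Finset.mem_coe]
    constructor
    · intro h
      refine ⟨fun i hi => ?_, fun i hi => ?_⟩
      · have := h i hi.1
        unfold glu at this
        rwa [if_pos hi.2] at this
      · have := h (i + N) hi
        unfold glu at this
        rwa [if_neg (by omega), Nat.add_sub_cancel] at this
    · rintro ⟨h1, h2⟩ i hi
      unfold glu
      split_ifs with h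
      · exact h1 i ⟨hi, h⟩
      · have e : i = (i - N) + N := by omega
        have h3 := h2 (i - N) (by rw [← e]; exact hi)
        rw [← e] at h3
        exact h3
  rw [hpre, Measure.prod_prod]
  unfold PD
  rw [Measure.infinitePi_pi _ (fun i _ => ht i), Measure.infinitePi_pi _ (fun i _ => ht (i + N)),
    ← Finset.prod_filter_mul_prod_filter_not I (fun i => i < N)]
  rw [← hI1]
  congr 1
  refine Finset.prod_nbij' (fun i => i + N) (fun i => i - N) ?_ ?_ ?_ ?_ ?_
  · intro i hi
    rw [hI2, Finset.mem_preimage] at hi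
    rw [Finset.mem_filter]
    exact ⟨hi, by omega⟩
  · intro i hi
    rw [Finset.mem_filter] at hi
    rw [hI2, Finset.mem_preimage, Nat.sub_add_cancel (by omega)]
    exact hi.1
  · intro i _
    omega
  · intro i hi
    rw [Finset.mem_filter] at hi
    omega
  · intro i _
    rfl

/-- **Continuation.** Every coupling of the streams can be changed after time `N` so that the walks
have only finitely many meetings. -/
theorem continuation (hd : 3 ≤ d) (x y : Fin d → ℤ) (π : Measure (St d × St d))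
    [IsProbabilityMeasure π] (h1 : π.map Prod.fst = PD d) (h2 : π.map Prod.snd = PD d) (N : ℕ) :
    ∃ (μ : Measure ((St d × St d) × (((Fin d → ℤ) × (Fin d → ℤ)) → St d × St d)))
      (ξ η : (St d × St d) × (((Fin d → ℤ) × (Fin d → ℤ)) → St d × St d) → St d),
      IsProbabilityMeasure μ ∧ Measurable ξ ∧ Measurable η ∧ μ.map Prod.fst = π ∧
      μ.map ξ = PD d ∧ μ.map η = PD d ∧ (∀ᵐ ω ∂μ, (ξ ω, η ω) ∈ RR x y) ∧
      (∀ ω k, k ≤ N → SD k (ξ ω) = SD k ω.1.1) ∧ (∀ ω k, k ≤ N → SD k (η ω) = SD k ω.1.2) := by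
  have hd0 : 0 < d := by omega
  have hl := lawD_prob hd0
  have hp := PD_prob hd0
  choose m m1 m2 m3 m4 m5 using fun q : (Fin d → ℤ) × (Fin d → ℤ) => streams hd q.1 q.2
  obtain ⟨Q, hQ⟩ : ∃ Q : Measure (((Fin d → ℤ) × (Fin d → ℤ)) → St d × St d),
      Q = Measure.infinitePi m := ⟨_, rfl⟩
  have hQp : IsProbabilityMeasure Q := by
    rw [hQ]
    infer_instance
  have hQe : ∀ q, Q.map (fun ζ => ζ q) = m q := by
    intro q
    rw [hQ]
    exact Measure.infinitePi_map_eval m q
  obtain ⟨q, hq⟩ : ∃ q : St d × St d → (Fin d → ℤ) × (Fin d → ℤ),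
      q = fun ω => (x + SD N ω.1, y + SD N ω.2) := ⟨_, rfl⟩
  have hqm : Measurable q := by
    rw [hq]
    exact (((meas_SD N).comp measurable_fst).const_add x).prodMk
      (((meas_SD N).comp measurable_snd).const_add y)
  obtain ⟨ev, hev⟩ : ∃ ev : (St d × St d) × (((Fin d → ℤ) × (Fin d → ℤ)) → St d × St d) →
      St d × St d, ev = fun ω => ω.2 (q ω.1) := ⟨_, rfl⟩
  have hevm : Measurable ev := by
    intro A hA
    have e : ev ⁻¹' A = ⋃ a : (Fin d → ℤ) × (Fin d → ℤ),
        ((fun ω => q ω.1) ⁻¹' {a} ∩ (fun ω => ω.2 a) ⁻¹' A) := by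
      ext ω
      rw [hev]
      simp only [Set.mem_preimage, Set.mem_iUnion, Set.mem_inter_iff, Set.mem_singleton_iff]
      exact ⟨fun h => ⟨_, rfl, h⟩, fun ⟨a, ha, h⟩ => by rw [ha]; exact h⟩
    rw [e]
    exact MeasurableSet.iUnion fun a =>
      ((hqm.comp measurable_fst) (MeasurableSet.singleton a)).inter
        (((measurable_pi_apply a).comp measurable_snd) hA)
  obtain ⟨ξ, hξ⟩ : ∃ ξ : (St d × St d) × (((Fin d → ℤ) × (Fin d → ℤ)) → St d × St d) → St d,
      ξ = fun ω => glu N ω.1.1 (ev ω).1 := ⟨_, rfl⟩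
  obtain ⟨η, hη⟩ : ∃ η : (St d × St d) × (((Fin d → ℤ) × (Fin d → ℤ)) → St d × St d) → St d,
      η = fun ω => glu N ω.1.2 (ev ω).2 := ⟨_, rfl⟩
  have hξm : Measurable ξ := by
    rw [hξ]
    exact (meas_glu N).comp ((measurable_fst.comp measurable_fst).prodMk
      (measurable_fst.comp hevm))
  have hηm : Measurable η := by
    rw [hη]
    exact (meas_glu N).comp ((measurable_snd.comp measurable_fst).prodMk
      (measurable_snd.comp hevm))
  have law1 : (π.prod Q).map ξ = PD d := by
    refine Measure.ext fun A hA => ?_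
    rw [Measure.map_apply hξm hA, Measure.prod_apply (hξm hA)]
    have hin : ∀ ω : St d × St d, Q (Prod.mk ω ⁻¹' (ξ ⁻¹' A)) =
        PD d {v | glu N ω.1 v ∈ A} := by
      intro ω
      have hm : MeasurableSet {v : St d | glu N ω.1 v ∈ A} :=
        ((meas_glu N).comp (measurable_const.prodMk measurable_id)) hA
      have e : Prod.mk ω ⁻¹' (ξ ⁻¹' A) = (fun ζ => ζ (q ω)) ⁻¹'
          (Prod.fst ⁻¹' {v : St d | glu N ω.1 v ∈ A}) := by
        ext ζ
        rw [hξ, hev]
        rfl
      rw [e, ← Measure.map_apply (measurable_pi_apply (q ω)) (measurable_fst hm), hQe,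
        ← Measure.map_apply measurable_fst hm, m2]
    simp only [hin]
    have hA' : MeasurableSet {p : St d × St d | glu N p.1 p.2 ∈ A} := meas_glu N hA
    have h3 : ∫⁻ ω, PD d {v | glu N ω.1 v ∈ A} ∂π =
        ∫⁻ u, PD d {v | glu N u v ∈ A} ∂(PD d) := by
      rw [← h1, lintegral_map _ measurable_fst]
      rw [h1]
      exact measurable_measure_prodMk_left hA'
    rw [h3]
    calc ∫⁻ u, PD d {v | glu N u v ∈ A} ∂(PD d)
        = ((PD d).prod (PD d)) {p : St d × St d | glu N p.1 p.2 ∈ A} :=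
          (Measure.prod_apply hA').symm
      _ = ((PD d).prod (PD d)).map (fun p => glu N p.1 p.2) A :=
          (Measure.map_apply (meas_glu N) hA).symm
      _ = PD d A := by rw [map_glu hd0]
  have law2 : (π.prod Q).map η = PD d := by
    refine Measure.ext fun A hA => ?_
    rw [Measure.map_apply hηm hA, Measure.prod_apply (hηm hA)]
    have hin : ∀ ω : St d × St d, Q (Prod.mk ω ⁻¹' (η ⁻¹' A)) =
        PD d {v | glu N ω.2 v ∈ A} := by
      intro ω
      have hm : MeasurableSet {v : St d | glu N ω.2 v ∈ A} :=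
        ((meas_glu N).comp (measurable_const.prodMk measurable_id)) hA
      have e : Prod.mk ω ⁻¹' (η ⁻¹' A) = (fun ζ => ζ (q ω)) ⁻¹'
          (Prod.snd ⁻¹' {v : St d | glu N ω.2 v ∈ A}) := by
        ext ζ
        rw [hη, hev]
        rfl
      rw [e, ← Measure.map_apply (measurable_pi_apply (q ω)) (measurable_snd hm), hQe,
        ← Measure.map_apply measurable_snd hm, m3]
    simp only [hin]
    have hA' : MeasurableSet {p : St d × St d | glu N p.1 p.2 ∈ A} := meas_glu N hA
    have h3 : ∫⁻ ω, PD d {v | glu N ω.2 v ∈ A} ∂π =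
        ∫⁻ u, PD d {v | glu N u v ∈ A} ∂(PD d) := by
      rw [← h2, lintegral_map _ measurable_snd]
      rw [h2]
      exact measurable_measure_prodMk_left hA'
    rw [h3]
    calc ∫⁻ u, PD d {v | glu N u v ∈ A} ∂(PD d)
        = ((PD d).prod (PD d)) {p : St d × St d | glu N p.1 p.2 ∈ A} :=
          (Measure.prod_apply hA').symm
      _ = ((PD d).prod (PD d)).map (fun p => glu N p.1 p.2) A :=
          (Measure.map_apply (meas_glu N) hA).symm
      _ = PD d A := by rw [map_glu hd0]
  refine ⟨π.prod Q, ξ, η, inferInstance, hξm, hηm, ?_, law1, law2, ?_, ?_, ?_⟩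
  · rw [Measure.map_fst_prod, measure_univ, one_smul]
  · have hT := ae_Tr hd
    have hT1 : ∀ᵐ ω ∂(π.prod Q), ξ ω ∈ Tr d := by
      refine ae_of_ae_map hξm.aemeasurable ?_
      rw [law1]
      exact hT
    have hT2 : ∀ᵐ ω ∂(π.prod Q), η ω ∈ Tr d := by
      refine ae_of_ae_map hηm.aemeasurable ?_
      rw [law2]
      exact hT
    have hQR : ∀ᵐ ζ ∂Q, ∀ a : (Fin d → ℤ) × (Fin d → ℤ), ζ a ∈ RR a.1 a.2 := by
      rw [ae_all_iff]
      intro a
      have h3 : ∀ᵐ ω ∂(m a), ω ∈ RR a.1 a.2 := m4 a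
      rw [← hQe a] at h3
      exact ae_of_ae_map (measurable_pi_apply a).aemeasurable h3
    have hQR' : ∀ᵐ ω ∂(π.prod Q), ∀ a : (Fin d → ℤ) × (Fin d → ℤ), ω.2 a ∈ RR a.1 a.2 := by
      have h4 : (π.prod Q).map Prod.snd = Q := by
        rw [Measure.map_snd_prod, measure_univ, one_smul]
      rw [← h4] at hQR
      exact ae_of_ae_map measurable_snd.aemeasurable hQR
    filter_upwards [hT1, hT2, hQR'] with ω a b c
    obtain ⟨_, _, M, hM⟩ := c (q ω.1)
    refine ⟨a, b, N + M, fun i j hi hj => ?_⟩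
    obtain ⟨i', rfl⟩ : ∃ i', i = N + i' := ⟨i - N, by omega⟩
    obtain ⟨j', rfl⟩ : ∃ j', j = N + j' := ⟨j - N, by omega⟩
    have h5 := hM i' j' (by omega) (by omega)
    show x + SD (N + i') (ξ ω) ≠ y + SD (N + j') (η ω)
    rw [hξ, hη]
    simp only
    rw [SD_glu_add, SD_glu_add, ← add_assoc, ← add_assoc]
    rw [hev]
    rw [hq] at h5 ⊢
    exact h5
  · intro ω k hk
    rw [hξ]
    exact SD_glu_le N _ _ k hk
  · intro ω k hk
    rw [hη]
    exact SD_glu_le N _ _ k hk

end Pool.Agent.Helper92.NX92
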