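import Mathlib

/-!
# A zero-one law for events which are invariant under finite permutations of i.i.d. sequences
-/

set_option autoImplicit false

open MeasureTheory ProbabilityTheory Filter
open scoped ENNReal NNReal symmDiff

namespace Pool.Agent.Helper92.NX92

/-- The product of the transpositions of a list. -/
def pm (l : List (ℕ × ℕ)) : Equiv.Perm ℕ := (l.map fun p => Equiv.swap p.1 p.2).prod

lemma pm_nil : pm [] = 1 := rfl

lemma pm_cons (p : ℕ × ℕ) (l : List (ℕ × ℕ)) : pm (p :: l) = Equiv.swap p.1 p.2 * pm l := by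
  unfold pm
  rw [List.map_cons, List.prod_cons]

lemma pm_append (l l' : List (ℕ × ℕ)) : pm (l ++ l') = pm l * pm l' := by
  unfold pm
  rw [List.map_append, List.prod_append]

lemma pm_single (p : ℕ × ℕ) : pm [p] = Equiv.swap p.1 p.2 := by
  rw [pm_cons, pm_nil, mul_one]

lemma pm_reverse (l : List (ℕ × ℕ)) : pm l.reverse = (pm l)⁻¹ := by
  induction l with
  | nil => rw [List.reverse_nil, pm_nil, inv_one]
  | cons p l ih =>
    rw [List.reverse_cons, pm_append, ih, pm_single, pm_cons, mul_inv_rev, Equiv.swap_inv]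

lemma pm_supp (l : List (ℕ × ℕ)) : ∃ K, ∀ i, K ≤ i → pm l i = i := by
  induction l with
  | nil => exact ⟨0, fun i _ => rfl⟩
  | cons p l ih =>
    obtain ⟨K, hK⟩ := ih
    refine ⟨K + p.1 + p.2 + 1, fun i hi => ?_⟩
    rw [pm_cons, Equiv.Perm.mul_apply, hK i (by omega)]
    exact Equiv.swap_apply_of_ne_of_ne (by omega) (by omega)

/-- the swaps which interchange `[0, k)` and `[n, n + k)` -/
def blk (n k : ℕ) : List (ℕ × ℕ) := (List.range k).map fun i => (i, n + i)

lemma blk_succ (n k : ℕ) : pm (blk n (k + 1)) = pm (blk n k) * Equiv.swap k (n + k) := by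
  unfold blk
  rw [List.range_succ, List.map_append, pm_append, List.map_singleton, pm_single]

lemma blk_apply (n k : ℕ) (hk : k ≤ n) (i : ℕ) :
    pm (blk n k) i = if i < k then n + i else if n ≤ i ∧ i < n + k then i - n else i := by
  induction k generalizing i with
  | zero =>
    have : pm (blk n 0) = 1 := rfl
    rw [this, Equiv.Perm.one_apply, if_neg (by omega), if_neg (by omega)]
  | succ k ih =>
    rw [blk_succ, Equiv.Perm.mul_apply]
    by_cases h1 : i = k
    · subst h1
      rw [Equiv.swap_apply_left, ih (by omega), if_neg (by omega), if_neg (by omega),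
        if_pos (by omega)]
    · by_cases h2 : i = n + k
      · subst h2
        rw [Equiv.swap_apply_right, ih (by omega), if_neg (by omega), if_neg (by omega),
          if_neg (by omega), if_pos (by omega)]
        omega
      · rw [Equiv.swap_apply_of_ne_of_ne h1 h2, ih (by omega)]
        split_ifs <;> omega

/-- reindexing -/
def rx {S : Type} (σ : Equiv.Perm ℕ) (ξ : ℕ → S) : ℕ → S := fun i => ξ (σ i)

lemma rx_rx {S : Type} (σ τ : Equiv.Perm ℕ) (ξ : ℕ → S) : rx τ (rx σ ξ) = rx (σ * τ) ξ := rfl

variable {S : Type} [MeasurableSpace S]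

lemma measurable_rx (σ : Equiv.Perm ℕ) : Measurable (rx (S := S) σ) :=
  measurable_pi_lambda _ fun i => measurable_pi_apply (σ i)

variable (μ : Measure S) [IsProbabilityMeasure μ]

lemma map_rx (σ : Equiv.Perm ℕ) : (Measure.infinitePi fun _ : ℕ => μ).map (rx σ) =
    Measure.infinitePi fun _ : ℕ => μ :=
  Measure.map_infinitePi_infinitePi_of_inj (P := fun _ : ℕ => μ) σ.injective

lemma cyl_sq (I : Finset ℕ) (T : Set ((i : I) → S)) (hT : MeasurableSet T) (σ : Equiv.Perm ℕ)
    (hσ : ∀ i ∈ I, σ i ∉ I) :
    (Measure.infinitePi fun _ : ℕ => μ) (cylinder I T ∩ rx σ ⁻¹' cylinder I T) =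
      (Measure.infinitePi fun _ : ℕ => μ) (cylinder I T) *
        (Measure.infinitePi fun _ : ℕ => μ) (cylinder I T) := by
  classical
  obtain ⟨P, hP⟩ : ∃ P, P = (Measure.infinitePi fun _ : ℕ => μ) := ⟨_, rfl⟩
  rw [← hP]
  have : IsProbabilityMeasure P := by rw [hP]; infer_instance
  have hind : iIndepFun (fun (i : ℕ) (ξ : ℕ → S) => ξ i) P := by
    rw [hP]
    exact iIndepFun_infinitePi (P := fun _ : ℕ => μ) (X := fun _ x => x) (fun _ => measurable_id)
  have hdis : Disjoint I (I.image σ) := by
    rw [Finset.disjoint_left]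
    intro a ha hb
    obtain ⟨i, hi, rfl⟩ := Finset.mem_image.1 hb
    exact hσ i hi ha
  have h1 := hind.indepFun_finset I (I.image σ) hdis (fun i => measurable_pi_apply i)
  have hg : Measurable (fun (u : (i : (I.image σ : Finset ℕ)) → S) (i : I) =>
      u ⟨σ i, Finset.mem_image_of_mem σ i.2⟩) :=
    measurable_pi_lambda _ fun i => measurable_pi_apply _
  have h2 := h1.comp (φ := id) (ψ := fun (u : (i : (I.image σ : Finset ℕ)) → S) (i : I) =>
      u ⟨σ i, Finset.mem_image_of_mem σ i.2⟩) measurable_id hg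
  rw [indepFun_iff_measure_inter_preimage_eq_mul] at h2
  have h3 := h2 T T hT hT
  have hmc : MeasurableSet (cylinder I T) := MeasurableSet.cylinder (α := fun _ : ℕ => S) I hT
  have h4 : P (rx σ ⁻¹' cylinder I T) = P (cylinder I T) := by
    rw [← Measure.map_apply (measurable_rx σ) hmc, hP, map_rx]
  calc P (cylinder I T ∩ rx σ ⁻¹' cylinder I T)
      = P (cylinder I T) * P (rx σ ⁻¹' cylinder I T) := h3
    _ = P (cylinder I T) * P (cylinder I T) := by rw [h4]

/-- **Zero-one law** for events which are invariant under finite permutations. -/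
theorem zero_one (A : Set (ℕ → S)) (hA : MeasurableSet A)
    (hinv : ∀ l, rx (pm l) ⁻¹' A = A) :
    (Measure.infinitePi fun _ : ℕ => μ) A = 0 ∨ (Measure.infinitePi fun _ : ℕ => μ) A = 1 := by
  classical
  obtain ⟨P, hP⟩ : ∃ P, P = (Measure.infinitePi fun _ : ℕ => μ) := ⟨_, rfl⟩
  rw [← hP]
  have : IsProbabilityMeasure P := by rw [hP]; infer_instance
  have hdense : P.MeasureDense (measurableCylinders fun _ : ℕ => S) :=
    Measure.MeasureDense.of_generateFrom_isSetAlgebra_finite P isSetAlgebra_measurableCylinders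
      generateFrom_measurableCylinders.symm
  have hp0 : 0 ≤ P.real A := measureReal_nonneg
  have hp1 : P.real A ≤ 1 := measureReal_le_one
  have key : ∀ ε : ℝ, 0 < ε → |P.real A - P.real A * P.real A| ≤ 4 * ε := by
    intro ε hε
    obtain ⟨B, hB, hAB⟩ := hdense.approx A hA (measure_ne_top _ _) ε hε
    obtain ⟨I, T, hT, rfl⟩ := (mem_measurableCylinders B).1 hB
    have hmc : MeasurableSet (cylinder I T) := MeasurableSet.cylinder (α := fun _ : ℕ => S) I hT
    obtain ⟨n, hn⟩ : ∃ n, ∀ i ∈ I, i < n := by
      refine ⟨I.sup id + 1, fun i hi => ?_⟩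
      have : i ≤ I.sup id := Finset.le_sup (f := id) hi
      omega
    have hσ : ∀ i ∈ I, pm (blk n n) i ∉ I := by
      intro i hi hc
      rw [blk_apply n n le_rfl, if_pos (hn i hi)] at hc
      have := hn _ hc
      omega
    have hsq := cyl_sq μ I T hT (pm (blk n n)) hσ
    rw [← hP] at hsq
    have hmr : MeasurableSet (rx (pm (blk n n)) ⁻¹' cylinder I T) := measurable_rx _ hmc
    have hAB' : P.real (A ∆ cylinder I T) < ε := by
      rw [measureReal_def]
      exact (ENNReal.toReal_lt_of_lt_ofReal hAB)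
    have h2 : P.real (A ∆ (rx (pm (blk n n)) ⁻¹' cylinder I T)) =
        P.real (A ∆ cylinder I T) := by
      rw [measureReal_def, measureReal_def]
      congr 1
      have e : A ∆ (rx (pm (blk n n)) ⁻¹' cylinder I T) =
          rx (pm (blk n n)) ⁻¹' (A ∆ cylinder I T) := by
        rw [Set.preimage_symmDiff, hinv]
      rw [e, ← Measure.map_apply (measurable_rx _) (hA.symmDiff hmc)]
      congr 1
      rw [hP, map_rx]
    have h3 : |P.real A - P.real (cylinder I T)| ≤ ε :=
      (abs_measureReal_sub_le_measureReal_symmDiff hA.nullMeasurableSet hmc.nullMeasurableSet).trans hAB'.le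
    have h4 : |P.real A - P.real (cylinder I T ∩ rx (pm (blk n n)) ⁻¹' cylinder I T)| ≤
        2 * ε := by
      refine (abs_measureReal_sub_le_measureReal_symmDiff hA.nullMeasurableSet
        (hmc.inter hmr).nullMeasurableSet).trans ?_
      have hsub : A ∆ (cylinder I T ∩ rx (pm (blk n n)) ⁻¹' cylinder I T) ⊆
          (A ∆ cylinder I T) ∪ (A ∆ (rx (pm (blk n n)) ⁻¹' cylinder I T)) := by
        intro z hz
        rw [Set.mem_symmDiff] at hz
        rw [Set.mem_union, Set.mem_symmDiff, Set.mem_symmDiff]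
        rcases hz with ⟨h1, h2⟩ | ⟨h1, h2⟩
        · rw [Set.mem_inter_iff, not_and_or] at h2
          rcases h2 with h2 | h2
          · exact Or.inl (Or.inl ⟨h1, h2⟩)
          · exact Or.inr (Or.inl ⟨h1, h2⟩)
        · exact Or.inl (Or.inr ⟨h1.1, h2⟩)
      calc P.real (A ∆ (cylinder I T ∩ rx (pm (blk n n)) ⁻¹' cylinder I T))
          ≤ P.real ((A ∆ cylinder I T) ∪ (A ∆ (rx (pm (blk n n)) ⁻¹' cylinder I T))) :=
            measureReal_mono hsub
        _ ≤ P.real (A ∆ cylinder I T) + P.real (A ∆ (rx (pm (blk n n)) ⁻¹' cylinder I T)) :=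
            measureReal_union_le _ _
        _ ≤ ε + ε := by rw [h2]; linarith
        _ = 2 * ε := by ring
    have h5 : P.real (cylinder I T ∩ rx (pm (blk n n)) ⁻¹' cylinder I T) =
        P.real (cylinder I T) * P.real (cylinder I T) := by
      rw [measureReal_def, hsq, ENNReal.toReal_mul, ← measureReal_def]
    rw [h5] at h4
    have hb0 : 0 ≤ P.real (cylinder I T) := measureReal_nonneg
    have hb1 : P.real (cylinder I T) ≤ 1 := measureReal_le_one
    have h6 : |P.real (cylinder I T) * P.real (cylinder I T) - P.real A * P.real A| ≤ 2 * ε := by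
      have e : P.real (cylinder I T) * P.real (cylinder I T) - P.real A * P.real A =
          -((P.real A - P.real (cylinder I T)) * (P.real (cylinder I T) + P.real A)) := by ring
      rw [e, abs_neg, abs_mul]
      calc |P.real A - P.real (cylinder I T)| * |P.real (cylinder I T) + P.real A|
          ≤ ε * 2 := by
            refine mul_le_mul h3 ?_ (abs_nonneg _) hε.le
            rw [abs_of_nonneg (by linarith)]
            linarith
        _ = 2 * ε := by ring
    calc |P.real A - P.real A * P.real A|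
        ≤ |P.real A - P.real (cylinder I T) * P.real (cylinder I T)| +
          |P.real (cylinder I T) * P.real (cylinder I T) - P.real A * P.real A| :=
          abs_sub_le _ _ _
      _ ≤ 2 * ε + 2 * ε := add_le_add h4 h6
      _ = 4 * ε := by ring
  have h0 : P.real A - P.real A * P.real A = 0 := by
    rw [← abs_nonpos_iff]
    refine le_of_forall_pos_le_add fun ε hε => ?_
    have := key (ε / 4) (by positivity)
    linarith
  have h1 : P.real A * (1 - P.real A) = 0 := by rw [← h0]; ring
  rcases mul_eq_zero.1 h1 with h | h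
  · left
    rwa [measureReal_def, ENNReal.toReal_eq_zero_iff, or_iff_left (measure_ne_top _ _)] at h
  · right
    have h2 : (P A).toReal = 1 := by
      rw [← measureReal_def]
      linarith
    rw [← ENNReal.ofReal_toReal (measure_ne_top P A), h2, ENNReal.ofReal_one]

/-- Almost every sequence can be moved into a given event of positive probability by a finite
permutation. -/
theorem ae_exists_rx (G : Set (ℕ → S)) (hG : MeasurableSet G)
    (hpos : (Measure.infinitePi fun _ : ℕ => μ) G ≠ 0) :
    ∀ᵐ ξ ∂(Measure.infinitePi fun _ : ℕ => μ), ∃ l, rx (pm l) ξ ∈ G := by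
  obtain ⟨A, hA⟩ : ∃ A : Set (ℕ → S), A = ⋃ l, rx (pm l) ⁻¹' G := ⟨_, rfl⟩
  have hAm : MeasurableSet A := by
    rw [hA]
    exact MeasurableSet.iUnion fun l => measurable_rx _ hG
  have hinv : ∀ l, rx (pm l) ⁻¹' A = A := by
    intro l
    ext ξ
    rw [hA]
    simp only [Set.mem_preimage, Set.mem_iUnion, rx_rx]
    constructor
    · rintro ⟨l', h⟩
      exact ⟨l ++ l', by rwa [pm_append]⟩
    · rintro ⟨l', h⟩
      refine ⟨l.reverse ++ l', ?_⟩
      rwa [pm_append, pm_reverse, mul_inv_cancel_left]
  have h1 : (Measure.infinitePi fun _ : ℕ => μ) A = 1 := by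
    refine (zero_one μ A hAm hinv).resolve_left fun h => hpos ?_
    refine measure_mono_null ?_ h
    intro ξ hξ
    rw [hA]
    exact Set.mem_iUnion.2 ⟨[], hξ⟩
  have h2 : ∀ᵐ ξ ∂(Measure.infinitePi fun _ : ℕ => μ), ξ ∈ A := by
    rw [← prob_compl_eq_zero_iff hAm] at h1
    exact h1
  filter_upwards [h2] with ξ hξ
  rw [hA] at hξ
  simpa using hξ

end Pool.Agent.Helper92.NX92
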