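import Pool.Agent.Helper92.NX92.Ext

/-!
# Recurrence in dimensions one and two, in the form of infinitely many visits
-/

set_option autoImplicit false

open MeasureTheory ProbabilityTheory Filter
open scoped ENNReal NNReal

namespace Pool.Agent.Helper92.NX92

open Pool.Agent.Y571.NX (vecD SD lawD)
open Pool.Agent.Y65.NX (hit_all meas_Hit Hit)
open Pool.Agent.Results.MP_e4a9a7_pr.FullAnswer (IsSRW)

variable {d : ℕ}

lemma rec_io (hd : 1 ≤ d) (hd2 : d ≤ 2) :
    ∀ᵐ u ∂(PD d), ∀ (z : Fin d → ℤ) (N : ℕ), ∃ n, N ≤ n ∧ SD n u = z := by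
  have hp := PD_prob hd
  have h1 : ∀ᵐ u ∂(PD d), ∀ z : Fin d → ℤ, ∃ n, SD n u = z := by
    rw [ae_all_iff]
    intro z
    have h2 : PD d (Hit z 0) = 1 := hit_all Pool.Agent.Y217.NX.reca hd hd2 z 0
    have h3 : ∀ᵐ u ∂(PD d), u ∈ Hit z 0 := by
      rw [← prob_compl_eq_zero_iff (meas_Hit z 0)] at h2
      exact h2
    filter_upwards [h3] with u hu
    obtain ⟨n, hn⟩ := hu
    exact ⟨n, by rwa [zero_add] at hn⟩
  have h2 : ∀ᵐ u ∂(PD d), ∀ (N : ℕ) (z : Fin d → ℤ), ∃ n, SD n (fun i => u (N + i)) = z := by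
    rw [ae_all_iff]
    intro N
    have hm : Measurable fun (u : St d) (i : ℕ) => u (N + i) :=
      measurable_pi_lambda _ fun i => measurable_pi_apply _
    rw [← map_shift hd N] at h1
    exact ae_of_ae_map hm.aemeasurable h1
  filter_upwards [h2] with u hu z N
  obtain ⟨n, hn⟩ := hu N (z - SD N u)
  exact ⟨N + n, Nat.le_add_right _ _, by rw [SD_add, hn, add_sub_cancel]⟩

/-- in dimensions one and two the walk visits every site infinitely often -/
theorem srw_io (hd : 1 ≤ d) (hd2 : d ≤ 2) {Ω : Type} [MeasurableSpace Ω] {P : Measure Ω}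
    [IsProbabilityMeasure P] {x : Fin d → ℤ} {X : ℕ → Ω → Fin d → ℤ} (h : IsSRW P x X) :
    ∀ᵐ ω ∂P, ∀ z, {n | X n ω = z}.Infinite := by
  obtain ⟨ξ, hξm, hξ, hξX⟩ := srw_stream hd h
  have h1 := rec_io hd hd2
  rw [← hξ] at h1
  filter_upwards [ae_of_ae_map hξm.aemeasurable h1, hξX] with ω h2 h3 z
  refine Set.infinite_of_not_bddAbove ?_
  rintro ⟨B, hB⟩
  obtain ⟨n, hn1, hn2⟩ := h2 (z - x) (B + 1)
  have h4 : n ≤ B := hB (by
    show X n ω = z
    rw [h3 n, hn2, add_sub_cancel])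
  omega

/-- in every dimension the walk hits every site with positive probability -/
theorem srw_hit (hd : 0 < d) {Ω : Type} [MeasurableSpace Ω] {P : Measure Ω}
    [IsProbabilityMeasure P] {x : Fin d → ℤ} {X : ℕ → Ω → Fin d → ℤ} (h : IsSRW P x X)
    (y : Fin d → ℤ) : P {ω | ∃ n, X n ω = y} ≠ 0 := by
  obtain ⟨ξ, hξm, hξ, hξX⟩ := srw_stream hd h
  intro hc
  apply hit_pos hd (y - x)
  have hm : MeasurableSet {u : St d | ∃ n, SD n u = y - x} := by
    have e : {u : St d | ∃ n, SD n u = y - x} = ⋃ n, (SD n) ⁻¹' {y - x} := by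
      ext u
      simp
    rw [e]
    exact MeasurableSet.iUnion fun n =>
      Pool.Agent.Y931.NX.meas_SD n (MeasurableSet.singleton _)
  rw [← hξ, Measure.map_apply hξm hm]
  have h1 : ∀ᵐ ω ∂P, ω ∉ {ω | ∃ n, X n ω = y} := measure_eq_zero_iff_ae_notMem.1 hc
  refine measure_eq_zero_iff_ae_notMem.2 ?_
  filter_upwards [h1, hξX] with ω h2 h3 h4
  apply h2
  obtain ⟨n, hn⟩ := h4
  exact ⟨n, by rw [h3 n, hn, add_sub_cancel]⟩

end Pool.Agent.Helper92.NX92
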