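import Pool.Graph.R_seed8.Results.MP_e4a9a7_pr.AllPairsAllDimensions
import Pool.Agent.Helper92.NX92.HS
import Pool.Agent.Helper92.NX92.Exh

/-!
# Streams of steps of simple random walks
-/

set_option autoImplicit false

open MeasureTheory ProbabilityTheory Filter
open scoped ENNReal NNReal

namespace Pool.Agent.Helper92.NX92

open Pool.Agent.Y571.NX (vecD SD lawD)
open Pool.Agent.Y931.NX (vecD_pos vecD_neg lawD_singleton lawD_prob meas_SD isSRW_of_streamD)
open Pool.Agent.Y65.NX (cns meas_cns QD_apply SD_cns)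
open Pool.Agent.Results.MP_e4a9a7_pr.FullAnswer (IsSRW)

variable {d : ℕ}

/-- streams of steps -/
abbrev St (d : ℕ) : Type := ℕ → Fin d × Bool

/-- law of i.i.d. uniform steps -/
noncomputable def PD (d : ℕ) : Measure (St d) := Measure.infinitePi fun _ : ℕ => lawD d

lemma PD_prob (hd : 0 < d) : IsProbabilityMeasure (PD d) := by
  have := lawD_prob hd
  unfold PD
  infer_instance

lemma SD_zero (u : St d) : SD 0 u = 0 := by
  simp [SD]

lemma SD_succ (n : ℕ) (u : St d) : SD (n + 1) u = SD n u + vecD (u n) := by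
  unfold SD
  rw [Finset.sum_range_succ]

lemma SD_add (m n : ℕ) (u : St d) : SD (m + n) u = SD m u + SD n (fun i => u (m + i)) := by
  unfold SD
  rw [Finset.sum_range_add]

lemma vecD_inj : Function.Injective (vecD (d := d)) := by
  rintro s ⟨i, b⟩ h
  cases b
  · exact (vecD_neg s i).1 (by rw [h]; rfl)
  · exact (vecD_pos s i).1 (by rw [h]; rfl)

/-- a walk comes from a stream of i.i.d. uniform steps -/
theorem srw_stream (hd : 0 < d) {Ω : Type} [MeasurableSpace Ω] {P : Measure Ω}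
    [IsProbabilityMeasure P] {x : Fin d → ℤ} {X : ℕ → Ω → Fin d → ℤ} (h : IsSRW P x X) :
    ∃ ξ : Ω → St d, Measurable ξ ∧ P.map ξ = PD d ∧ ∀ᵐ ω ∂P, ∀ n, X n ω = x + SD n (ξ ω) := by
  classical
  obtain ⟨hm, h0, hind, hstep⟩ := h
  have hlp := lawD_prob hd
  have hne : Nonempty (Fin d × Bool) := ⟨(⟨0, hd⟩, true)⟩
  obtain ⟨dec, hdec⟩ : ∃ dec : (Fin d → ℤ) → Fin d × Bool, ∀ s, dec (vecD s) = s :=
    ⟨Function.invFun vecD, Function.leftInverse_invFun vecD_inj⟩
  have hdm : Measurable dec := Measurable.of_discrete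
  have hincm : ∀ n, Measurable fun ω => X (n + 1) ω - X n ω := fun n => (hm (n + 1)).sub (hm n)
  obtain ⟨ξ, hξ⟩ : ∃ ξ : Ω → St d, ξ = fun ω n => dec (X (n + 1) ω - X n ω) := ⟨_, rfl⟩
  have hξn : ∀ n, Measurable fun ω => ξ ω n := by
    intro n
    rw [hξ]
    exact hdm.comp (hincm n)
  have hξm : Measurable ξ := measurable_pi_lambda _ hξn
  have hv : ∀ n s, P {ω | X (n + 1) ω - X n ω = vecD s} = 1 / (2 * (d : ℝ≥0∞)) := by
    intro n s
    obtain ⟨i, b⟩ := s
    cases b
    · exact (hstep n i).2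
    · exact (hstep n i).1
  have hvm : ∀ n s, MeasurableSet {ω | X (n + 1) ω - X n ω = vecD s} := fun n s =>
    hincm n (MeasurableSet.singleton (vecD s))
  -- almost surely every increment is a unit vector
  have hae : ∀ n, ∀ᵐ ω ∂P, ∃ s, X (n + 1) ω - X n ω = vecD s := by
    intro n
    have h1 : P (⋃ s, {ω | X (n + 1) ω - X n ω = vecD s}) = 1 := by
      rw [measure_iUnion]
      · simp only [hv, tsum_fintype, Finset.sum_const, Finset.card_univ]
        have h2 := measure_univ (μ := lawD d)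
        have h3 : lawD d Set.univ = ∑ s : Fin d × Bool, lawD d {s} := by
          rw [sum_measure_singleton, Finset.coe_univ]
        rw [h3] at h2
        simp only [lawD_singleton, Finset.sum_const, Finset.card_univ] at h2
        exact h2
      · intro s t hst
        rw [Function.onFun, Set.disjoint_left]
        intro ω h1 h2
        exact hst (vecD_inj (h1.symm.trans h2))
      · exact hvm n
    have h2 : ∀ᵐ ω ∂P, ω ∈ ⋃ s, {ω | X (n + 1) ω - X n ω = vecD s} := by
      rw [← prob_compl_eq_zero_iff (MeasurableSet.iUnion (hvm n))] at h1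
      exact h1
    filter_upwards [h2] with ω hω
    simpa using hω
  have hae' : ∀ᵐ ω ∂P, ∀ n, X (n + 1) ω - X n ω = vecD (ξ ω n) := by
    rw [ae_all_iff]
    intro n
    filter_upwards [hae n] with ω ⟨s, hs⟩
    rw [hξ]
    show X (n + 1) ω - X n ω = vecD (dec (X (n + 1) ω - X n ω))
    rw [hs, hdec]
  have hlaw : ∀ n, P.map (fun ω => ξ ω n) = lawD d := by
    intro n
    apply Measure.ext_of_singleton
    intro s
    rw [Measure.map_apply (hξn n) (MeasurableSet.singleton s), lawD_singleton, ← hv n s]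
    refine measure_congr ?_
    filter_upwards [hae'] with ω hω
    refine propext ?_
    show ξ ω n = s ↔ X (n + 1) ω - X n ω = vecD s
    rw [hω n]
    exact ⟨fun h => by rw [h], fun h => vecD_inj h⟩
  refine ⟨ξ, hξm, ?_, ?_⟩
  · have hind2 : iIndepFun (fun n ω => ξ ω n) P := by
      have h1 := hind.comp (fun _ => dec) (fun _ => hdm)
      rw [hξ]
      exact h1
    have h2 := (iIndepFun_iff_map_fun_eq_infinitePi_map hξn).1 hind2
    unfold PD
    calc P.map ξ = P.map (fun ω n => ξ ω n) := rfl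
      _ = _ := h2
      _ = _ := by
        congr 1
        funext n
        exact hlaw n
  · filter_upwards [hae'] with ω hω n
    induction n with
    | zero => rw [h0, SD_zero, add_zero]
    | succ n ih =>
      rw [SD_succ, ← add_assoc, ← ih, ← hω n]
      abel

/-! ### moves -/

lemma SD_rx (l : List (ℕ × ℕ)) : ∃ K, ∀ n, K ≤ n → ∀ u : St d, SD n (rx (pm l) u) = SD n u := by
  obtain ⟨K, hK⟩ := pm_supp l
  refine ⟨K, fun n hn u => ?_⟩
  unfold SD rx
  refine Finset.sum_equiv (pm l) ?_ (fun i _ => rfl)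
  intro i
  rw [Finset.mem_range, Finset.mem_range]
  constructor
  · intro h
    by_contra hc
    have h1 := hK (pm l i) (by omega)
    have h2 := (pm l).injective h1
    omega
  · intro h
    by_contra hc
    have h1 := hK i (by omega)
    omega

lemma measurable_cns (s : Fin d × Bool) : Measurable (cns s : St d → St d) :=
  meas_cns.comp (measurable_const.prodMk measurable_id)

lemma map_shift (hd : 0 < d) (k : ℕ) : (PD d).map (fun u i => u (k + i)) = PD d := by
  have := lawD_prob hd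
  exact Measure.map_infinitePi_infinitePi_of_inj (P := fun _ : ℕ => lawD d)
    (f := fun i => k + i) (add_right_injective k)

lemma PD_apply (hd : 0 < d) {E : Set (St d)} (hE : MeasurableSet E) :
    PD d E = (2 * (d : ℝ≥0∞))⁻¹ * ∑ s : Fin d × Bool, PD d {u | cns s u ∈ E} := QD_apply hd hE

lemma map_cns_le (hd : 0 < d) (s : Fin d × Bool) :
    (2 * (d : ℝ≥0∞))⁻¹ • (PD d).map (cns s) ≤ PD d := by
  rw [Measure.le_iff]
  intro A hA
  rw [Measure.smul_apply, Measure.map_apply (measurable_cns s) hA, PD_apply hd hA, smul_eq_mul]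
  gcongr
  exact Finset.single_le_sum (f := fun s : Fin d × Bool => PD d {u | cns s u ∈ A})
    (fun _ _ => zero_le) (Finset.mem_univ s)

/-! ### the lattice is generated by the steps -/

lemma exists_list (w : Fin d → ℤ) : ∃ l : List (Fin d × Bool), (l.map vecD).sum = w := by
  classical
  obtain ⟨M, hM⟩ : ∃ M : AddSubmonoid (Fin d → ℤ),
      ∀ w, w ∈ M ↔ ∃ l : List (Fin d × Bool), (l.map vecD).sum = w := by
    refine ⟨{ carrier := {w | ∃ l : List (Fin d × Bool), (l.map vecD).sum = w}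
              zero_mem' := ⟨[], rfl⟩
              add_mem' := ?_ }, fun w => Iff.rfl⟩
    rintro a b ⟨l, rfl⟩ ⟨l', rfl⟩
    exact ⟨l ++ l', by rw [List.map_append, List.sum_append]⟩
  have h1 : ∀ i : Fin d, (Pi.single i 1 : Fin d → ℤ) ∈ M := fun i =>
    (hM _).2 ⟨[(i, true)], by simp [vecD]⟩
  have h2 : ∀ i : Fin d, (Pi.single i (-1) : Fin d → ℤ) ∈ M := fun i =>
    (hM _).2 ⟨[(i, false)], by simp [vecD]⟩
  have h3 : ∀ (i : Fin d) (k : ℤ), (Pi.single i k : Fin d → ℤ) ∈ M := by
    intro i k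
    induction k using Int.induction_on with
    | zero => rw [Pi.single_zero]; exact M.zero_mem
    | succ k ih => rw [Pi.single_add]; exact M.add_mem ih (h1 i)
    | pred k ih => rw [sub_eq_add_neg, Pi.single_add]; exact M.add_mem ih (h2 i)
  rw [← hM, ← Finset.univ_sum_single w]
  exact M.sum_mem fun i _ => h3 i _

lemma lat_induction (Q : (Fin d → ℤ) → Prop) (h0 : Q 0) (hs : ∀ s w, Q w → Q (vecD s + w)) :
    ∀ w, Q w := by
  intro w
  obtain ⟨l, rfl⟩ := exists_list w
  induction l with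
  | nil => exact h0
  | cons s l ih => rw [List.map_cons, List.sum_cons]; exact hs _ _ ih

/-- the walk hits every point with positive probability -/
lemma hit_pos (hd : 0 < d) (w : Fin d → ℤ) : PD d {u | ∃ n, SD n u = w} ≠ 0 := by
  have hprob := PD_prob hd
  refine lat_induction (fun w => PD d {u | ∃ n, SD n u = w} ≠ 0) ?_ ?_ w
  · have e : {u : St d | ∃ n, SD n u = 0} = Set.univ := by
      rw [Set.eq_univ_iff_forall]
      exact fun u => ⟨0, SD_zero u⟩
    show PD d {u : St d | ∃ n, SD n u = 0} ≠ 0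
    rw [e, measure_univ]
    exact one_ne_zero
  · intro s w hw hc
    have hm : MeasurableSet {u : St d | ∃ n, SD n u = vecD s + w} := by
      have e : {u : St d | ∃ n, SD n u = vecD s + w} = ⋃ n, (SD n) ⁻¹' {vecD s + w} := by
        ext u
        simp
      rw [e]
      exact MeasurableSet.iUnion fun n => meas_SD n (MeasurableSet.singleton _)
    rw [PD_apply hd hm, mul_eq_zero] at hc
    rcases hc with hc | hc
    · rw [ENNReal.inv_eq_zero] at hc
      exact absurd hc (ENNReal.mul_ne_top (by norm_num) (ENNReal.natCast_ne_top d))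
    · rw [Finset.sum_eq_zero_iff] at hc
      refine hw (measure_mono_null ?_ (hc s (Finset.mem_univ s)))
      rintro u ⟨n, hn⟩
      exact ⟨n + 1, by rw [SD_cns, hn]⟩

/-- streams whose walks leave every point forever -/
def Tr (d : ℕ) : Set (St d) := {u | ∀ z : Fin d → ℤ, ∃ N, ∀ n, N ≤ n → SD n u ≠ z}

/-- streams whose walks visit `z` finitely often -/
def Tz (z : Fin d → ℤ) : Set (St d) := {u | ∃ N, ∀ n, N ≤ n → SD n u ≠ z}

lemma meas_Tz (z : Fin d → ℤ) : MeasurableSet (Tz z) := by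
  have e : Tz z = ⋃ N : ℕ, ⋂ n : ℕ, ⋂ _ : N ≤ n, (SD n ⁻¹' {z})ᶜ := by
    ext u
    simp [Tz]
  rw [e]
  exact MeasurableSet.iUnion fun N => MeasurableSet.iInter fun n => MeasurableSet.iInter fun _ =>
    (meas_SD n (MeasurableSet.singleton z)).compl

lemma Tr_eq : Tr d = ⋂ z, Tz z := by
  ext u
  simp [Tr, Tz]

lemma meas_Tr : MeasurableSet (Tr d) := by
  rw [Tr_eq]
  exact MeasurableSet.iInter fun z => meas_Tz z

lemma Tz_rx (l : List (ℕ × ℕ)) (z : Fin d → ℤ) (u : St d) : rx (pm l) u ∈ Tz z ↔ u ∈ Tz z := by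
  obtain ⟨K, hK⟩ := SD_rx (d := d) l
  constructor
  · rintro ⟨N, hN⟩
    refine ⟨max N K, fun n hn => ?_⟩
    rw [← hK n ((le_max_right _ _).trans hn)]
    exact hN n ((le_max_left _ _).trans hn)
  · rintro ⟨N, hN⟩
    refine ⟨max N K, fun n hn => ?_⟩
    rw [hK n ((le_max_right _ _).trans hn)]
    exact hN n ((le_max_left _ _).trans hn)

lemma Tz_zero_one (hd : 0 < d) (z : Fin d → ℤ) : PD d (Tz z) = 0 ∨ PD d (Tz z) = 1 := by
  have := lawD_prob hd
  refine zero_one (lawD d) (Tz z) (meas_Tz z) fun l => ?_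
  ext u
  exact Tz_rx l z u

/-- if some point is visited finitely often almost surely then all points are -/
lemma Tz_all (hd : 0 < d) (w : Fin d → ℤ) (h : ∃ z : Fin d → ℤ, PD d (Tz z) = 0) :
    PD d (Tz w) = 0 := by
  obtain ⟨z, hz⟩ := h
  have h1 : ∀ v : Fin d → ℤ, PD d (Tz (z - v)) = 0 := by
    refine lat_induction (fun v => PD d (Tz (z - v)) = 0) ?_ ?_
    · show PD d (Tz (z - 0)) = 0
      rw [sub_zero]
      exact hz
    · intro s v hv
      show PD d (Tz (z - (vecD s + v))) = 0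
      rw [PD_apply hd (meas_Tz _), mul_eq_zero, Finset.sum_eq_zero_iff] at hv
      rcases hv with hc | hc
      · rw [ENNReal.inv_eq_zero] at hc
        exact absurd hc (ENNReal.mul_ne_top (by norm_num) (ENNReal.natCast_ne_top d))
      · refine measure_mono_null ?_ (hc s (Finset.mem_univ s))
        rintro u ⟨N, hN⟩
        refine ⟨N + 1, fun n hn => ?_⟩
        obtain ⟨m, rfl⟩ : ∃ m, n = m + 1 := ⟨n - 1, by omega⟩
        rw [SD_cns]
        intro h2
        apply hN m (by omega)
        rw [eq_sub_iff_add_eq] at h2 ⊢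
        rw [← h2]
        abel
  have := h1 (z - w)
  rwa [sub_sub_cancel] at this

/-- **transience** from the existence of a sub-coupling with disjoint paths -/
lemma transient (hd : 0 < d) (x y : Fin d → ℤ) (π : Measure (St d × St d))
    (h1 : π.map Prod.fst ≤ PD d) (h2 : π Set.univ ≠ 0)
    (h3 : ∀ᵐ ω ∂π, ∀ m n, x + SD m ω.1 ≠ y + SD n ω.2) : ∀ᵐ u ∂(PD d), u ∈ Tr d := by
  have hprob := PD_prob hd
  have key : ∀ z : Fin d → ℤ, PD d (Tz z) = 1 := by
    intro z
    refine (Tz_zero_one hd z).resolve_left fun hc => ?_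
    have h4 : PD d (Tz (y - x)) = 0 := Tz_all hd (y - x) ⟨z, hc⟩
    have h5 : ∀ᵐ u ∂(PD d), u ∉ Tz (y - x) := measure_eq_zero_iff_ae_notMem.1 h4
    have h6 : ∀ᵐ ω ∂π, ω.1 ∉ Tz (y - x) :=
      ae_of_ae_map measurable_fst.aemeasurable (h5.filter_mono (ae_mono h1))
    have h7 : ∀ᵐ ω ∂π, False := by
      filter_upwards [h3, h6] with ω h3 h6
      apply h6
      refine ⟨0, fun n _ hn => h3 n 0 ?_⟩
      rw [hn, SD_zero, add_zero, add_sub_cancel]
    rw [ae_iff] at h7
    exact h2 (by simpa using h7)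
  have h4 : ∀ᵐ u ∂(PD d), ∀ z, u ∈ Tz z := by
    rw [ae_all_iff]
    intro z
    have := key z
    rw [← prob_compl_eq_zero_iff (meas_Tz z)] at this
    exact this
  filter_upwards [h4] with u hu
  rw [Tr_eq]
  exact Set.mem_iInter.2 hu

/-! ### the relation -/

/-- pairs of streams for which only finitely many pairs of times give meetings of the walks from `x`
and `y` and which are transient -/
def RR (x y : Fin d → ℤ) : Set (St d × St d) :=
  {ω | ω.1 ∈ Tr d ∧ ω.2 ∈ Tr d ∧ ∃ N, ∀ m n, N ≤ m → N ≤ n → x + SD m ω.1 ≠ y + SD n ω.2}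

lemma meas_RR (x y : Fin d → ℤ) : MeasurableSet (RR x y) := by
  have e : RR x y = (Prod.fst ⁻¹' Tr d) ∩ ((Prod.snd ⁻¹' Tr d) ∩
      ⋃ N : ℕ, ⋂ m : ℕ, ⋂ n : ℕ, ⋂ _ : N ≤ m, ⋂ _ : N ≤ n,
        {ω : St d × St d | x + SD m ω.1 = y + SD n ω.2}ᶜ) := by
    ext ω
    simp [RR]
  rw [e]
  refine (measurable_fst meas_Tr).inter ((measurable_snd meas_Tr).inter
    (MeasurableSet.iUnion fun N => MeasurableSet.iInter fun m => MeasurableSet.iInter fun n =>
      MeasurableSet.iInter fun _ => MeasurableSet.iInter fun _ => ?_))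
  refine (measurableSet_eq_fun ?_ ?_).compl
  · exact ((meas_SD m).comp measurable_fst).const_add x
  · exact ((meas_SD n).comp measurable_snd).const_add y

lemma RR_rx (x y : Fin d → ℤ) (l l' : List (ℕ × ℕ)) (ω : St d × St d) (h : ω ∈ RR x y) :
    (rx (pm l) ω.1, rx (pm l') ω.2) ∈ RR x y := by
  obtain ⟨h1, h2, N, hN⟩ := h
  rw [Tr_eq, Set.mem_iInter] at h1 h2
  obtain ⟨K, hK⟩ := SD_rx (d := d) l
  obtain ⟨K', hK'⟩ := SD_rx (d := d) l'
  refine ⟨?_, ?_, N + K + K', fun m n hm hn => ?_⟩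
  · rw [Tr_eq, Set.mem_iInter]
    exact fun z => (Tz_rx l z _).2 (h1 z)
  · rw [Tr_eq, Set.mem_iInter]
    exact fun z => (Tz_rx l' z _).2 (h2 z)
  · show x + SD m (rx (pm l) ω.1) ≠ y + SD n (rx (pm l') ω.2)
    rw [hK m (by omega), hK' n (by omega)]
    exact hN m n (by omega) (by omega)

lemma RR_finite (x y : Fin d → ℤ) (ω : St d × St d) (h : ω ∈ RR x y) :
    {p : ℕ × ℕ | x + SD p.1 ω.1 = y + SD p.2 ω.2}.Finite := by
  obtain ⟨h1, h2, N, hN⟩ := h
  choose A hA using h1
  choose B hB using h2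
  obtain ⟨M1, hM1⟩ : ∃ M1, ∀ m, m < N → B (x + SD m ω.1 - y) ≤ M1 :=
    ⟨(Finset.range N).sup fun m => B (x + SD m ω.1 - y), fun m hm =>
      Finset.le_sup (f := fun m => B (x + SD m ω.1 - y)) (Finset.mem_range.2 hm)⟩
  obtain ⟨M2, hM2⟩ : ∃ M2, ∀ n, n < N → A (y + SD n ω.2 - x) ≤ M2 :=
    ⟨(Finset.range N).sup fun n => A (y + SD n ω.2 - x), fun n hn =>
      Finset.le_sup (f := fun n => A (y + SD n ω.2 - x)) (Finset.mem_range.2 hn)⟩
  refine Set.Finite.subset ((Set.finite_Iio (N + M2)).prod (Set.finite_Iio (N + M1))) ?_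
  rintro ⟨m, n⟩ hmn
  have hmn' : x + SD m ω.1 = y + SD n ω.2 := hmn
  rw [Set.mem_prod, Set.mem_Iio, Set.mem_Iio]
  have h3 : m < N → n < M1 := by
    intro hm
    by_contra hc
    refine hB (x + SD m ω.1 - y) n ((hM1 m hm).trans (by omega)) ?_
    rw [hmn', add_sub_cancel_left]
  have h4 : n < N → m < M2 := by
    intro hn
    by_contra hc
    refine hA (y + SD n ω.2 - x) m ((hM2 n hn).trans (by omega)) ?_
    rw [← hmn', add_sub_cancel_left]
  have h5 : m < N ∨ n < N := by
    by_contra hc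
    push Not at hc
    exact hN m n hc.1 hc.2 hmn'
  constructor
  · show m < N + M2
    rcases h5 with h | h
    · omega
    · have := h4 h; omega
  · show n < N + M1
    rcases h5 with h | h
    · have := h3 h; omega
    · omega

/-- **Completion** for the relation. -/
theorem complete_RR (hd : 0 < d) (x y : Fin d → ℤ) (π0 : Measure (St d × St d))
    (h0 : Adm (PD d) (PD d) (RR x y) π0) (hne : π0 Set.univ ≠ 0) :
    ∃ μ : Measure (St d × St d), IsProbabilityMeasure μ ∧ μ.map Prod.fst = PD d ∧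
      μ.map Prod.snd = PD d ∧ μ (RR x y)ᶜ = 0 ∧ π0 ≤ μ := by
  have hl := lawD_prob hd
  have hprob := PD_prob hd
  exact complete (meas_RR x y) (fun l : List (ℕ × ℕ) => rx (pm l)) (fun l : List (ℕ × ℕ) => rx (pm l))
    (fun l => measurable_rx _) (fun l => measurable_rx _) (fun l => map_rx (lawD d) _)
    (fun l => map_rx (lawD d) _) (ae_exists_rx (lawD d)) (ae_exists_rx (lawD d))
    (fun l l' ω hω => RR_rx x y l l' ω hω) π0 h0 hne

end Pool.Agent.Helper92.NX92
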